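import Mathlib

set_option autoImplicit false

/-!
# Project FA (helper120), job W3 (helper299), second part: a multiplicative convolution is bounded in `L²`
-/

namespace Pool.Agent.Q299.FA.WO

open MeasureTheory Filter Topology Set

theorem conv_int {G : ℝ → ℝ} (hI : IntegrableOn G (Ioi 1)) {m : ℕ} (hm : 1 ≤ m) :
    IntegrableOn (fun u => G (u / m)) (Ici (m : ℝ)) ∧
      ∫ u in Ici (m : ℝ), G (u / m) = m * ∫ w in Ioi (1 : ℝ), G w := by
  have hm0 : (0 : ℝ) < m := by exact_mod_cast hm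
  have hi : (0 : ℝ) < 1 / m := by positivity
  have e1 : (fun u : ℝ => G (u / m)) = fun u => G (1 / (m : ℝ) * u) := by
    funext u
    congr 1
    ring
  have e2 : 1 / (m : ℝ) * m = 1 := by field_simp
  constructor
  · rw [integrableOn_Ici_iff_integrableOn_Ioi, e1, integrableOn_Ioi_comp_mul_left_iff G _ hi, e2]
    exact hI
  · rw [integral_Ici_eq_integral_Ioi, e1, integral_comp_mul_left_Ioi G _ hi, e2, smul_eq_mul]
    field_simp

theorem conv {f S : ℝ → ℝ} (hf : Measurable f) (hS : Measurable S)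
    (hI : IntegrableOn (fun w => f w ^ 2) (Ioi 1))
    (hSf : ∀ u, 1 ≤ u → S u = ∑ m ∈ Finset.Icc 1 ⌊u⌋₊, f (u / m) / (m : ℝ) ^ 2) :
    IntegrableOn (fun u => S u ^ 2) (Ioi 1) := by
  have hs : Summable (fun m : ℕ => (m : ℝ) ^ (-(3 / 2) : ℝ)) :=
    Real.summable_nat_rpow.2 (by norm_num)
  set C : ℝ := ∑' m : ℕ, (m : ℝ) ^ (-(3 / 2) : ℝ) with hC
  set A : ℝ := ∫ w in Ioi (1 : ℝ), f w ^ 2 with hA
  have hC0 : 0 ≤ C := tsum_nonneg fun m => Real.rpow_nonneg (Nat.cast_nonneg m) _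
  have hA0 : 0 ≤ A := integral_nonneg fun w => sq_nonneg (f w)
  set P : ℕ → ℝ → ℝ := fun m u => C * (m : ℝ) ^ (-(5 / 2) : ℝ) *
    (Ici (m : ℝ)).indicator (fun u => f (u / m) ^ 2) u with hP
  have hP0 : ∀ m u, 0 ≤ P m u := by
    intro m u
    have h1 : 0 ≤ (m : ℝ) ^ (-(5 / 2) : ℝ) := Real.rpow_nonneg (Nat.cast_nonneg m) _
    have h2 : 0 ≤ (Ici (m : ℝ)).indicator (fun u => f (u / m) ^ 2) u :=
      indicator_nonneg (fun _ _ => sq_nonneg _) u
    exact mul_nonneg (mul_nonneg hC0 h1) h2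
  have hPm : ∀ m, Measurable (P m) := by
    intro m
    have h2 : Measurable (fun x : ℝ => x / (m : ℝ)) := by fun_prop
    have h3 : Measurable (fun u : ℝ => f (u / (m : ℝ)) ^ 2) := (hf.comp h2).pow_const 2
    exact (h3.indicator measurableSet_Ici).const_mul _
  have hPi : ∀ m : ℕ, ∫⁻ u in Ioi (1 : ℝ), ENNReal.ofReal (P m u) ≤
      ENNReal.ofReal (C * A * (m : ℝ) ^ (-(3 / 2) : ℝ)) := by
    intro m
    rcases Nat.eq_zero_or_pos m with h | h
    · have : ∀ u, P m u = 0 := by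
        intro u
        simp only [hP, h, Nat.cast_zero]
        rw [Real.zero_rpow (by norm_num)]
        ring
      simp [this]
    · have hm0 : (0 : ℝ) < m := by exact_mod_cast h
      obtain ⟨h1, h2⟩ := conv_int hI h
      have h3 : Integrable (P m) := (h1.integrable_indicator measurableSet_Ici).const_mul _
      have h4 : ∫ u, P m u = C * A * (m : ℝ) ^ (-(3 / 2) : ℝ) := by
        simp only [hP]
        rw [integral_const_mul, integral_indicator measurableSet_Ici, h2]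
        have h5 : (m : ℝ) ^ (-(3 / 2) : ℝ) = (m : ℝ) ^ (-(5 / 2) : ℝ) * m := by
          rw [← Real.rpow_add_one hm0.ne']
          norm_num
        rw [h5]
        ring
      calc ∫⁻ u in Ioi (1 : ℝ), ENNReal.ofReal (P m u) ≤ ∫⁻ u, ENNReal.ofReal (P m u) :=
            setLIntegral_le_lintegral _ _
        _ = ENNReal.ofReal (∫ u, P m u) :=
            (ofReal_integral_eq_lintegral_ofReal h3 (Eventually.of_forall (hP0 m))).symm
        _ = _ := by rw [h4]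
  have hpt : ∀ u ∈ Ioi (1 : ℝ), ENNReal.ofReal (S u ^ 2) ≤ ∑' m : ℕ, ENNReal.ofReal (P m u) := by
    intro u hu
    have hu1 : 1 < u := hu
    have hu0 : 0 ≤ u := by linarith
    have h1 : S u ^ 2 ≤ ∑ m ∈ Finset.Icc 1 ⌊u⌋₊, P m u := by
      rw [hSf u hu1.le]
      have e1 : ∑ m ∈ Finset.Icc 1 ⌊u⌋₊, f (u / m) / (m : ℝ) ^ 2 =
          ∑ m ∈ Finset.Icc 1 ⌊u⌋₊, (m : ℝ) ^ (-(3 / 4) : ℝ) * ((m : ℝ) ^ (-(5 / 4) : ℝ) * f (u / m)) := by
        refine Finset.sum_congr rfl fun m hm => ?_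
        have hm0 : (0 : ℝ) < m := by exact_mod_cast (Finset.mem_Icc.1 hm).1
        rw [← mul_assoc, ← Real.rpow_add hm0]
        have : (-(3 / 4) : ℝ) + -(5 / 4) = -(2 : ℕ) := by norm_num
        rw [this, Real.rpow_neg hm0.le, Real.rpow_natCast]
        field_simp
      rw [e1]
      refine (Finset.sum_mul_sq_le_sq_mul_sq _ _ _).trans ?_
      have e2 : ∑ m ∈ Finset.Icc 1 ⌊u⌋₊, ((m : ℝ) ^ (-(3 / 4) : ℝ)) ^ 2 ≤ C := by
        have : ∑ m ∈ Finset.Icc 1 ⌊u⌋₊, ((m : ℝ) ^ (-(3 / 4) : ℝ)) ^ 2 =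
            ∑ m ∈ Finset.Icc 1 ⌊u⌋₊, (m : ℝ) ^ (-(3 / 2) : ℝ) := by
          refine Finset.sum_congr rfl fun m hm => ?_
          rw [← Real.rpow_natCast, ← Real.rpow_mul (Nat.cast_nonneg m)]
          norm_num
        rw [this]
        exact hs.sum_le_tsum _ fun m _ => Real.rpow_nonneg (Nat.cast_nonneg m) _
      have e3 : ∑ m ∈ Finset.Icc 1 ⌊u⌋₊, P m u =
          C * ∑ m ∈ Finset.Icc 1 ⌊u⌋₊, ((m : ℝ) ^ (-(5 / 4) : ℝ) * f (u / m)) ^ 2 := by
        rw [Finset.mul_sum]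
        refine Finset.sum_congr rfl fun m hm => ?_
        have hmu : u ∈ Ici (m : ℝ) := (Nat.le_floor_iff hu0).1 (Finset.mem_Icc.1 hm).2
        simp only [hP]
        rw [indicator_of_mem hmu, mul_pow, ← Real.rpow_natCast ((m : ℝ) ^ (-(5 / 4) : ℝ)) 2,
          ← Real.rpow_mul (Nat.cast_nonneg m)]
        have : (-(5 / 4) : ℝ) * ((2 : ℕ) : ℝ) = -(5 / 2) := by norm_num
        rw [this]
        ring
      rw [e3]
      exact mul_le_mul_of_nonneg_right e2 (Finset.sum_nonneg fun m _ => sq_nonneg _)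
    calc ENNReal.ofReal (S u ^ 2) ≤ ENNReal.ofReal (∑ m ∈ Finset.Icc 1 ⌊u⌋₊, P m u) :=
          ENNReal.ofReal_le_ofReal h1
      _ = ∑ m ∈ Finset.Icc 1 ⌊u⌋₊, ENNReal.ofReal (P m u) :=
          ENNReal.ofReal_sum_of_nonneg fun m _ => hP0 m u
      _ ≤ _ := ENNReal.sum_le_tsum _
  refine ⟨(hS.pow_const 2).aestronglyMeasurable, ?_⟩
  rw [hasFiniteIntegral_iff_ofReal (Eventually.of_forall fun u => sq_nonneg (S u))]
  calc ∫⁻ u in Ioi (1 : ℝ), ENNReal.ofReal (S u ^ 2)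
      ≤ ∫⁻ u in Ioi (1 : ℝ), ∑' m : ℕ, ENNReal.ofReal (P m u) :=
        setLIntegral_mono' measurableSet_Ioi hpt
    _ = ∑' m : ℕ, ∫⁻ u in Ioi (1 : ℝ), ENNReal.ofReal (P m u) :=
        lintegral_tsum fun m => (hPm m).ennreal_ofReal.aemeasurable
    _ ≤ ∑' m : ℕ, ENNReal.ofReal (C * A * (m : ℝ) ^ (-(3 / 2) : ℝ)) := ENNReal.tsum_le_tsum hPi
    _ = ENNReal.ofReal (∑' m : ℕ, C * A * (m : ℝ) ^ (-(3 / 2) : ℝ)) :=
        (ENNReal.ofReal_tsum_of_nonneg (fun m => mul_nonneg (mul_nonneg hC0 hA0)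
          (Real.rpow_nonneg (Nat.cast_nonneg m) _)) (hs.mul_left _)).symm
    _ < ⊤ := ENNReal.ofReal_lt_top

end Pool.Agent.Q299.FA.WO
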