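import Pool.Agent.Q299.FA.W3A
import Pool.Agent.Q299.FA.W3B
import Pool.Agent.Q241.SPL.MV

set_option autoImplicit false

/-!
# Project FA (helper120), job W3 (helper299): the oscillation of `h` on short intervals
-/

namespace Pool.Agent.Q299.FA

open MeasureTheory Filter Topology Set Pool.Agent.Q120.FA

theorem Mx_eq (x : ℝ) : Pool.Agent.H295R2.Mx x = Mr x := rfl

theorem D_sq_int (hz : ZC) {θ : ℝ} (h0 : 0 ≤ θ) (h1 : θ < 1) :
    IntegrableOn (fun w => (WO.D θ w / w) ^ 2) (Ioi 1) := by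
  have hbt : Q241SPL.Between θ 1 (fun u => Pool.Agent.H295R2.Mx u + WO.D θ u) := by
    refine ⟨Pool.Agent.H295R2.Mx_meas.add (WO.D_meas θ), fun x hx => ?_⟩
    obtain ⟨y, y', hy, hy', h⟩ := WO.D_att (θ := θ) (u := x) (by linarith)
    refine ⟨y, y', hy, hy', ?_⟩
    rw [add_sub_cancel_left, Mx_eq, Mx_eq, ← h, abs_of_nonneg (WO.D_nonneg _ _)]
  have hzer : ∀ ρ ∈ Q241SPL.Zer, ρ.re ≤ (1 / 2 : ℝ) := fun ρ hρ => (hz.1 ρ hρ).1.le
  have hm := hbt.maximal h0 h1 le_rfl hzer (κ := 1) (by linarith)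
  have hm' := hm.mono_set (Ioi_subset_Ici_self (a := (1 : ℝ)))
  refine hm'.congr_fun (fun u hu => ?_) measurableSet_Ioi
  have hu1 : (1 : ℝ) < u := hu
  have hu0 : 0 < u := by linarith
  simp only [add_sub_cancel_left]
  have e : (-1 - 1 : ℝ) = -((2 : ℕ) : ℝ) := by norm_num
  rw [e, Real.rpow_neg hu0.le, Real.rpow_natCast, div_pow]
  rfl

theorem t_W3 : J_W3 := by
  intro hz θ h0 h1
  have hD := D_sq_int hz h0 h1
  have hS := WO.conv (f := fun w => WO.D θ w / w) (S := fun u => WO.F θ u / u)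
    ((WO.D_meas θ).div measurable_id) ((WO.F_meas θ).div measurable_id) hD (by
      intro u hu
      have hu0 : 0 < u := by linarith
      simp only [WO.F]
      rw [Finset.sum_div]
      refine Finset.sum_congr rfl fun m hm => ?_
      have hm0 : (0 : ℝ) < m := by exact_mod_cast (Finset.mem_Icc.1 hm).1
      field_simp)
  have hpm : Measurable (fun u : ℝ => u ^ (θ - 1)) := by fun_prop
  have hOm : Measurable (fun u : ℝ => WO.F θ u + 2 * u ^ (θ - 1)) :=
    (WO.F_meas θ).add (hpm.const_mul 2)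
  refine ⟨fun u => WO.F θ u + 2 * u ^ (θ - 1), hOm, fun u hu => ⟨?_, fun y hy => ?_⟩, ?_⟩
  · have h2 : 0 ≤ u ^ (θ - 1) := Real.rpow_nonneg (by linarith) _
    have h3 := WO.F_nonneg θ u
    show 0 ≤ WO.F θ u + 2 * u ^ (θ - 1)
    linarith
  · exact WO.hh_osc h0 h1 hu hy
  · have hp : IntegrableOn (fun u : ℝ => u ^ (2 * θ - 4)) (Ioi 1) :=
      integrableOn_Ioi_rpow_of_lt (by linarith) one_pos
    have hsum := (hS.const_mul 2).add (hp.const_mul 8)
    refine Integrable.mono' hsum ((hOm.div measurable_id).pow_const 2).aestronglyMeasurable ?_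
    filter_upwards [ae_restrict_mem measurableSet_Ioi] with u hu
    have hu1 : (1 : ℝ) < u := hu
    have hu0 : 0 < u := by linarith
    rw [Real.norm_of_nonneg (sq_nonneg _)]
    have e1 : u ^ (2 * θ - 4) = (u ^ (θ - 1) / u) ^ 2 := by
      rw [← Real.rpow_sub_one hu0.ne', ← Real.rpow_natCast, ← Real.rpow_mul hu0.le]
      congr 1
      push_cast
      ring
    show ((WO.F θ u + 2 * u ^ (θ - 1)) / u) ^ 2 ≤ 2 * (WO.F θ u / u) ^ 2 + 8 * u ^ (2 * θ - 4)
    rw [e1]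
    have e2 : (WO.F θ u + 2 * u ^ (θ - 1)) / u = WO.F θ u / u + 2 * (u ^ (θ - 1) / u) := by ring
    rw [e2]
    nlinarith [sq_nonneg (WO.F θ u / u - 2 * (u ^ (θ - 1) / u))]

end Pool.Agent.Q299.FA
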