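import Pool.Agent.Q120.FA.Stm4

set_option autoImplicit false

/-!
# Project FA (helper120), job W6 (helper299), part 2: the mean of `j2`
-/

namespace Pool.Agent.Q299.FA.WS

open MeasureTheory Filter Topology Set Pool.Agent.Q120.FA

theorem z3_pos : 0 < z3 := by
  unfold z3
  have hs : Summable fun n : ℕ => 1 / (n : ℝ) ^ 3 := Real.summable_one_div_nat_pow.2 (by norm_num)
  exact hs.tsum_pos (fun n => by positivity) 1 (by norm_num)

theorem moebius3 : ∑' d : ℕ, ((ArithmeticFunction.moebius d : ℤ) : ℝ) / (d : ℝ) ^ 3 = 1 / z3 := by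
  have h2 : (1 : ℝ) < (3 : ℂ).re := by norm_num
  have h := ArithmeticFunction.LSeries_zeta_mul_Lseries_moebius h2
  have hz : riemannZeta 3 = (z3 : ℂ) := by
    have h3 := zeta_nat_eq_tsum_of_gt_one (k := 3) (by norm_num)
    have h4 : ((3 : ℕ) : ℂ) = (3 : ℂ) := by norm_num
    rw [h4] at h3
    rw [h3]
    unfold z3
    rw [Complex.ofReal_tsum]
    refine tsum_congr fun n => ?_
    push_cast
    rfl
  rw [ArithmeticFunction.LSeries_zeta_eq_riemannZeta h2, hz] at h
  have hz0 : (z3 : ℂ) ≠ 0 := by exact_mod_cast z3_pos.ne'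
  have h3 : LSeries (fun n => ((ArithmeticFunction.moebius n : ℤ) : ℂ)) 3 = 1 / (z3 : ℂ) := by
    field_simp
    linear_combination h
  apply Complex.ofReal_injective
  rw [Complex.ofReal_tsum]
  push_cast
  rw [← h3]
  unfold LSeries
  refine tsum_congr fun d => ?_
  unfold LSeries.term
  split_ifs with hd
  · simp [hd]
  · congr 1
    norm_num

/-- harmonic numbers -/
noncomputable def Hn (m : ℕ) : ℝ := ∑ j ∈ Finset.Icc 1 m, 1 / (j : ℝ)

theorem Hn_eq (m : ℕ) : Hn m = (harmonic m : ℝ) := by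
  unfold Hn
  rw [harmonic_eq_sum_Icc]
  push_cast
  exact Finset.sum_congr rfl fun j _ => one_div _

theorem Hn_nonneg (m : ℕ) : 0 ≤ Hn m := Finset.sum_nonneg fun j _ => by positivity

theorem Hn_ge (m : ℕ) : Real.log ((m : ℝ) + 1) ≤ Hn m := by
  rw [Hn_eq]
  have := log_add_one_le_harmonic m
  push_cast at this
  exact this

theorem Hn_le (m : ℕ) : Hn m ≤ 1 + Real.log m := by
  rw [Hn_eq]
  exact harmonic_le_one_add_log m

/-- `∑_{e ≤ n} j2 e/e` -/
noncomputable def AA (n : ℕ) : ℝ := ∑ e ∈ Finset.Icc 1 n, j2 e / e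

theorem mult_image {n k : ℕ} (hk : 1 ≤ k) : (Finset.Icc 1 n).filter (fun e => k ∣ e) =
    (Finset.Icc 1 (n / k)).image (fun j => k * j) := by
  ext e
  rw [Finset.mem_filter, Finset.mem_Icc, Finset.mem_image]
  constructor
  · rintro ⟨⟨h1, h2⟩, j, rfl⟩
    refine ⟨j, ?_, rfl⟩
    rw [Finset.mem_Icc]
    constructor
    · rcases Nat.eq_zero_or_pos j with rfl | h
      · simp at h1
      · exact h
    · rw [Nat.le_div_iff_mul_le (by omega), mul_comm]
      exact h2
  · rintro ⟨j, hj, rfl⟩
    rw [Finset.mem_Icc, Nat.le_div_iff_mul_le (by omega)] at hj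
    refine ⟨⟨?_, by rw [mul_comm]; exact hj.2⟩, dvd_mul_right _ _⟩
    exact Nat.one_le_iff_ne_zero.2 (Nat.mul_ne_zero (by omega) (by omega))

theorem AA_eq (n : ℕ) : AA n = ∑' k : ℕ, ((ArithmeticFunction.moebius k : ℤ) : ℝ) / (k : ℝ) ^ 3 *
    Hn (n / k) := by
  rw [tsum_eq_sum (s := Finset.Icc 1 n)]
  · have h1 : AA n = ∑ e ∈ Finset.Icc 1 n, ∑ k ∈ e.divisors,
        ((ArithmeticFunction.moebius k : ℤ) : ℝ) / (k : ℝ) ^ 2 / e := by
      unfold AA j2
      refine Finset.sum_congr rfl fun e _ => ?_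
      rw [Finset.sum_div]
    rw [h1]
    have h2 : ∑ e ∈ Finset.Icc 1 n, ∑ k ∈ e.divisors,
        ((ArithmeticFunction.moebius k : ℤ) : ℝ) / (k : ℝ) ^ 2 / e =
        ∑ k ∈ Finset.Icc 1 n, ∑ e ∈ (Finset.Icc 1 n).filter (fun e => k ∣ e),
          ((ArithmeticFunction.moebius k : ℤ) : ℝ) / (k : ℝ) ^ 2 / e := by
      refine Finset.sum_comm' fun e k => ?_
      rw [Finset.mem_Icc, Finset.mem_filter, Finset.mem_Icc, Finset.mem_Icc, Nat.mem_divisors]
      constructor
      · rintro ⟨⟨h3, h4⟩, h5, h6⟩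
        exact ⟨⟨⟨h3, h4⟩, h5⟩, Nat.pos_of_dvd_of_pos h5 (by omega),
          (Nat.le_of_dvd (by omega) h5).trans h4⟩
      · rintro ⟨⟨⟨h3, h4⟩, h5⟩, h6, h7⟩
        exact ⟨⟨h3, h4⟩, h5, by omega⟩
    rw [h2]
    refine Finset.sum_congr rfl fun k hk => ?_
    rw [Finset.mem_Icc] at hk
    have hk0 : (0 : ℝ) < k := by exact_mod_cast hk.1
    rw [mult_image hk.1, Finset.sum_image fun a _ b _ h => Nat.eq_of_mul_eq_mul_left (by omega) h]
    unfold Hn
    rw [Finset.mul_sum]
    refine Finset.sum_congr rfl fun j _ => ?_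
    push_cast
    rcases Nat.eq_zero_or_pos j with rfl | hj
    · simp
    · have hj0 : (0 : ℝ) < j := by exact_mod_cast hj
      field_simp
  · intro k hk
    rw [Finset.mem_Icc] at hk
    have : n / k = 0 := by
      rcases Nat.eq_zero_or_pos k with rfl | h
      · exact Nat.div_zero n
      · exact Nat.div_eq_of_lt (by omega)
    rw [this]
    simp [Hn]

theorem abs_moebius_le (k : ℕ) : |((ArithmeticFunction.moebius k : ℤ) : ℝ)| ≤ 1 := by
  have := ArithmeticFunction.abs_moebius_le_one (n := k)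
  exact_mod_cast this

theorem tendsto_log_nat : Tendsto (fun n : ℕ => Real.log n) atTop atTop :=
  Real.tendsto_log_atTop.comp tendsto_natCast_atTop_atTop

/-- the mean of `j2` -/
theorem AA_lim : Tendsto (fun n : ℕ => AA n / Real.log n) atTop (𝓝 (1 / z3)) := by
  rw [← moebius3]
  have h : ∀ n : ℕ, AA n / Real.log n = ∑' k : ℕ, ((ArithmeticFunction.moebius k : ℤ) : ℝ) /
      (k : ℝ) ^ 3 * (Hn (n / k) / Real.log n) := by
    intro n
    rw [AA_eq, ← tsum_div_const]
    exact tsum_congr fun k => mul_div_assoc _ _ _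
  simp only [h]
  refine tendsto_tsum_of_dominated_convergence (bound := fun k : ℕ => 2 * (1 / (k : ℝ) ^ 3))
    ((Real.summable_one_div_nat_pow.2 (by norm_num)).mul_left 2) ?_ ?_
  · intro k
    rcases Nat.eq_zero_or_pos k with rfl | hk
    · simp
    · have hk0 : (0 : ℝ) < k := by exact_mod_cast hk
      have hlim : Tendsto (fun n : ℕ => Hn (n / k) / Real.log n) atTop (𝓝 1) := by
        have hlo : Tendsto (fun n : ℕ => 1 - Real.log k / Real.log n) atTop (𝓝 (1 - 0)) :=
          tendsto_const_nhds.sub (tendsto_const_nhds.div_atTop tendsto_log_nat)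
        have hup : Tendsto (fun n : ℕ => 1 / Real.log n + 1) atTop (𝓝 (0 + 1)) :=
          (tendsto_const_nhds.div_atTop tendsto_log_nat).add tendsto_const_nhds
        rw [sub_zero] at hlo
        rw [zero_add] at hup
        refine tendsto_of_tendsto_of_tendsto_of_le_of_le' hlo hup ?_ ?_
        · filter_upwards [eventually_ge_atTop 3] with n hn
          have hn3 : (3 : ℝ) ≤ n := by exact_mod_cast hn
          have hL : 0 < Real.log n := Real.log_pos (by linarith)
          have h1 : Real.log n - Real.log k ≤ Hn (n / k) := by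
            rw [← Real.log_div (by positivity) hk0.ne']
            refine le_trans (Real.log_le_log (by positivity) ?_) (Hn_ge (n / k))
            have := Nat.lt_div_mul_add (a := n) hk
            rw [div_le_iff₀ hk0]
            have h2 : (n : ℝ) < ((n / k : ℕ) : ℝ) * k + k := by exact_mod_cast this
            linarith
          rw [le_div_iff₀ hL, sub_mul, one_mul, div_mul_cancel₀ _ hL.ne']
          exact h1
        · filter_upwards [eventually_ge_atTop 3] with n hn
          have hn3 : (3 : ℝ) ≤ n := by exact_mod_cast hn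
          have hL : 0 < Real.log n := Real.log_pos (by linarith)
          rw [div_add_one hL.ne']
          refine div_le_div_of_nonneg_right ?_ hL.le
          refine (Hn_le _).trans ?_
          rcases Nat.eq_zero_or_pos (n / k) with h0 | h0
          · rw [h0]
            simp only [Nat.cast_zero, Real.log_zero]
            linarith
          · have h1 : ((n / k : ℕ) : ℝ) ≤ n := by exact_mod_cast Nat.div_le_self n k
            have := Real.log_le_log (by exact_mod_cast h0) h1
            linarith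
      have := hlim.const_mul (((ArithmeticFunction.moebius k : ℤ) : ℝ) / (k : ℝ) ^ 3)
      rwa [mul_one] at this
  · filter_upwards [eventually_ge_atTop 3] with n hn k
    have hn3 : (3 : ℝ) ≤ n := by exact_mod_cast hn
    have hL : 1 ≤ Real.log n := by
      rw [Real.le_log_iff_exp_le (by linarith)]
      have := Real.exp_one_lt_d9
      linarith
    have h1 : |((ArithmeticFunction.moebius k : ℤ) : ℝ) / (k : ℝ) ^ 3| ≤ 1 / (k : ℝ) ^ 3 := by
      rw [abs_div, abs_of_nonneg (by positivity : (0 : ℝ) ≤ (k : ℝ) ^ 3)]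
      exact div_le_div_of_nonneg_right (abs_moebius_le k) (by positivity)
    have h2 : |Hn (n / k) / Real.log n| ≤ 2 := by
      rw [abs_of_nonneg (div_nonneg (Hn_nonneg _) (by linarith)), div_le_iff₀ (by linarith)]
      refine (Hn_le _).trans ?_
      rcases Nat.eq_zero_or_pos (n / k) with h0 | h0
      · rw [h0]
        simp only [Nat.cast_zero, Real.log_zero]
        linarith
      · have h1 : ((n / k : ℕ) : ℝ) ≤ n := by exact_mod_cast Nat.div_le_self n k
        have := Real.log_le_log (by exact_mod_cast h0) h1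
        linarith
    rw [Real.norm_eq_abs, abs_mul, mul_comm (2 : ℝ)]
    exact mul_le_mul h1 h2 (abs_nonneg _) (by positivity)

theorem j2_bounds (e : ℕ) (he : 1 ≤ e) : 0 ≤ j2 e ∧ j2 e ≤ 2 := by
  have h1 : (1 : ℕ) ∈ e.divisors := Nat.mem_divisors.2 ⟨one_dvd _, by omega⟩
  have h2 : j2 e = 1 + ∑ k ∈ e.divisors.erase 1, ((ArithmeticFunction.moebius k : ℤ) : ℝ) / (k : ℝ) ^ 2 := by
    unfold j2
    rw [← Finset.add_sum_erase _ _ h1]
    simp
  have h3 : |∑ k ∈ e.divisors.erase 1, ((ArithmeticFunction.moebius k : ℤ) : ℝ) / (k : ℝ) ^ 2| ≤ 1 := by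
    refine (Finset.abs_sum_le_sum_abs _ _).trans ?_
    have h4 : ∀ k ∈ e.divisors.erase 1, |((ArithmeticFunction.moebius k : ℤ) : ℝ) / (k : ℝ) ^ 2| ≤
        ((k : ℝ) ^ 2)⁻¹ := by
      intro k _
      rw [abs_div, abs_of_nonneg (by positivity : (0 : ℝ) ≤ (k : ℝ) ^ 2), ← one_div]
      exact div_le_div_of_nonneg_right (abs_moebius_le k) (by positivity)
    refine (Finset.sum_le_sum h4).trans ?_
    have h5 : e.divisors.erase 1 ⊆ Finset.Ioc 1 e := by
      intro k hk
      rw [Finset.mem_erase, Nat.mem_divisors] at hk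
      rw [Finset.mem_Ioc]
      have h6 := Nat.pos_of_dvd_of_pos hk.2.1 (by omega)
      exact ⟨by omega, Nat.le_of_dvd (by omega) hk.2.1⟩
    refine (Finset.sum_le_sum_of_subset_of_nonneg h5 fun k _ _ => by positivity).trans ?_
    refine (sum_Ioc_inv_sq_le_sub one_ne_zero he).trans ?_
    have : (0 : ℝ) ≤ (e : ℝ)⁻¹ := by positivity
    simp only [Nat.cast_one, inv_one]
    linarith
  obtain ⟨h7, h8⟩ := abs_le.1 h3
  rw [h2]
  constructor <;> linarith

/-- `∑_{e ≤ X} (j2 e/e) log((X+1)/e)` -/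
noncomputable def BB (X : ℕ) : ℝ := ∑ e ∈ Finset.Icc 1 X, j2 e / e * Real.log (((X : ℝ) + 1) / e)

theorem BB_eq (X : ℕ) : BB X = ∑ n ∈ Finset.Icc 1 X, (Real.log ((n : ℝ) + 1) - Real.log n) * AA n := by
  induction X with
  | zero => simp [BB]
  | succ X ih =>
    rw [Finset.sum_Icc_succ_top (by omega), ← ih]
    unfold BB AA
    rw [Finset.mul_sum, Finset.sum_Icc_succ_top (by omega) (fun e : ℕ => j2 e / e * Real.log ((((X + 1 : ℕ) : ℝ) + 1) / e)),
      Finset.sum_Icc_succ_top (by omega) (fun e : ℕ => (Real.log (((X + 1 : ℕ) : ℝ) + 1) - Real.log ((X + 1 : ℕ) : ℝ)) * (j2 e / e)),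
      ← add_assoc, ← Finset.sum_add_distrib]
    congr 1
    · refine Finset.sum_congr rfl fun e he => ?_
      rw [Finset.mem_Icc] at he
      have he0 : (0 : ℝ) < e := by exact_mod_cast he.1
      rw [Real.log_div (by positivity) he0.ne', Real.log_div (by positivity) he0.ne']
      push_cast
      ring
    · rw [Real.log_div (by positivity) (by positivity)]
      ring

/-- `log (n+1) - log n` -/
noncomputable def ell (n : ℕ) : ℝ := Real.log ((n : ℝ) + 1) - Real.log n

theorem ell_nonneg (n : ℕ) : 0 ≤ ell n := by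
  unfold ell
  rcases Nat.eq_zero_or_pos n with rfl | hn
  · simp
  · have hn0 : (0 : ℝ) < n := by exact_mod_cast hn
    have := Real.log_le_log hn0 (by linarith : (n : ℝ) ≤ n + 1)
    linarith

theorem ell_le (n : ℕ) : ell n ≤ 1 := by
  unfold ell
  rcases Nat.eq_zero_or_pos n with rfl | hn
  · simp
  · have hn0 : (0 : ℝ) < n := by exact_mod_cast hn
    have hn1 : (1 : ℝ) ≤ n := by exact_mod_cast hn
    rw [← Real.log_div (by positivity) hn0.ne']
    have h1 : ((n : ℝ) + 1) / n ≤ 2 := by
      rw [div_le_iff₀ hn0]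
      linarith
    have h2 := Real.log_le_log (by positivity) h1
    have h3 := Real.log_two_lt_d9
    linarith

/-- `∑ ell n * log n` -/
noncomputable def TT (X : ℕ) : ℝ := ∑ n ∈ Finset.range (X + 1), ell n * Real.log n

theorem TT_bounds (X : ℕ) : Real.log ((X : ℝ) + 1) ^ 2 / 2 - Real.log ((X : ℝ) + 1) / 2 ≤ TT X ∧
    TT X ≤ Real.log ((X : ℝ) + 1) ^ 2 / 2 := by
  have h1 : ∑ n ∈ Finset.range (X + 1), (Real.log ((n : ℝ) + 1) ^ 2 - Real.log n ^ 2) =
      Real.log ((X : ℝ) + 1) ^ 2 := by
    have := Finset.sum_range_sub (fun n : ℕ => Real.log (n : ℝ) ^ 2) (X + 1)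
    simp only [Nat.cast_zero, Real.log_zero, Nat.cast_add, Nat.cast_one] at this
    rw [this]
    ring
  have h2 : ∑ n ∈ Finset.range (X + 1), ell n = Real.log ((X : ℝ) + 1) := by
    have := Finset.sum_range_sub (fun n : ℕ => Real.log (n : ℝ)) (X + 1)
    simp only [Nat.cast_zero, Real.log_zero, Nat.cast_add, Nat.cast_one] at this
    unfold ell
    rw [this]
    ring
  have h3 : TT X = Real.log ((X : ℝ) + 1) ^ 2 / 2 - (∑ n ∈ Finset.range (X + 1), ell n ^ 2) / 2 := by
    unfold TT
    rw [← h1, ← sub_div, ← Finset.sum_sub_distrib, Finset.sum_div]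
    refine Finset.sum_congr rfl fun n _ => ?_
    unfold ell
    ring
  have h4 : ∑ n ∈ Finset.range (X + 1), ell n ^ 2 ≤ Real.log ((X : ℝ) + 1) := by
    rw [← h2]
    refine Finset.sum_le_sum fun n _ => ?_
    have := ell_nonneg n
    have := ell_le n
    nlinarith
  have h5 : 0 ≤ ∑ n ∈ Finset.range (X + 1), ell n ^ 2 := Finset.sum_nonneg fun n _ => sq_nonneg _
  rw [h3]
  constructor <;> linarith

theorem log_succ_lim : Tendsto (fun X : ℕ => Real.log ((X : ℝ) + 1) / Real.log X) atTop (𝓝 1) := by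
  have hup : Tendsto (fun n : ℕ => 1 + 1 / Real.log n) atTop (𝓝 (1 + 0)) :=
    tendsto_const_nhds.add (tendsto_const_nhds.div_atTop tendsto_log_nat)
  rw [add_zero] at hup
  refine tendsto_of_tendsto_of_tendsto_of_le_of_le' tendsto_const_nhds hup ?_ ?_
  · filter_upwards [eventually_ge_atTop 3] with n hn
    have hn3 : (3 : ℝ) ≤ n := by exact_mod_cast hn
    have hL : 0 < Real.log n := Real.log_pos (by linarith)
    have h1 := ell_nonneg n
    unfold ell at h1
    rw [le_div_iff₀ hL]
    linarith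
  · filter_upwards [eventually_ge_atTop 3] with n hn
    have hn3 : (3 : ℝ) ≤ n := by exact_mod_cast hn
    have hL : 0 < Real.log n := Real.log_pos (by linarith)
    have h1 := ell_le n
    unfold ell at h1
    rw [div_le_iff₀ hL, add_mul, one_div, inv_mul_cancel₀ hL.ne']
    linarith

theorem TT_lim : Tendsto (fun X : ℕ => TT X / Real.log X ^ 2) atTop (𝓝 (1 / 2)) := by
  have h1 := log_succ_lim
  have hup : Tendsto (fun X : ℕ => (Real.log ((X : ℝ) + 1) / Real.log X) ^ 2 / 2) atTop
      (𝓝 (1 ^ 2 / 2)) := (h1.pow 2).div_const 2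
  have hlo : Tendsto (fun X : ℕ => (Real.log ((X : ℝ) + 1) / Real.log X) ^ 2 / 2 -
      (Real.log ((X : ℝ) + 1) / Real.log X) * (1 / Real.log X) / 2) atTop
      (𝓝 (1 ^ 2 / 2 - 1 * 0 / 2)) :=
    hup.sub ((h1.mul (tendsto_const_nhds.div_atTop tendsto_log_nat)).div_const 2)
  rw [one_pow] at hup
  rw [one_pow, mul_zero, zero_div, sub_zero] at hlo
  refine tendsto_of_tendsto_of_tendsto_of_le_of_le' hlo hup ?_ ?_
  · filter_upwards [eventually_ge_atTop 3] with n hn
    have hn3 : (3 : ℝ) ≤ n := by exact_mod_cast hn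
    have hL : 0 < Real.log n := Real.log_pos (by linarith)
    have := (TT_bounds n).1
    rw [le_div_iff₀ (by positivity)]
    refine le_trans (le_of_eq ?_) this
    field_simp
  · filter_upwards [eventually_ge_atTop 3] with n hn
    have hn3 : (3 : ℝ) ≤ n := by exact_mod_cast hn
    have hL : 0 < Real.log n := Real.log_pos (by linarith)
    have := (TT_bounds n).2
    rw [div_le_iff₀ (by positivity)]
    refine le_trans this (le_of_eq ?_)
    field_simp

theorem TT_top : Tendsto (fun n : ℕ => ∑ i ∈ Finset.range n, ell i * Real.log i) atTop atTop := by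
  have h1 : Tendsto (fun X : ℕ => TT X) atTop atTop := by
    have h2 : Tendsto (fun X : ℕ => Real.log X ^ 2 * (TT X / Real.log X ^ 2)) atTop atTop := by
      refine Tendsto.atTop_mul_pos (by norm_num : (0 : ℝ) < 1 / 2) ?_ TT_lim
      exact (tendsto_pow_atTop (by norm_num)).comp tendsto_log_nat
    refine h2.congr' ?_
    filter_upwards [eventually_ge_atTop 3] with n hn
    have hn3 : (3 : ℝ) ≤ n := by exact_mod_cast hn
    have hL : 0 < Real.log n := Real.log_pos (by linarith)
    field_simp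
  exact (tendsto_add_atTop_iff_nat (f := fun n : ℕ => ∑ i ∈ Finset.range n, ell i * Real.log i) 1).1 h1

theorem log_nat_nonneg (n : ℕ) : 0 ≤ Real.log (n : ℝ) := Real.log_natCast_nonneg n

/-- the weighted mean -/
theorem BB_lim : Tendsto (fun X : ℕ => BB X / Real.log X ^ 2) atTop (𝓝 (1 / (2 * z3))) := by
  have hf : (fun n : ℕ => ell n * (AA n - 1 / z3 * Real.log n)) =o[atTop]
      fun n : ℕ => ell n * Real.log n := by
    have h1 : (fun n : ℕ => AA n - 1 / z3 * Real.log n) =o[atTop] fun n : ℕ => Real.log (n : ℝ) := by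
      rw [Asymptotics.isLittleO_iff_tendsto']
      · have h2 := AA_lim.sub_const (1 / z3)
        rw [sub_self] at h2
        refine h2.congr' ?_
        filter_upwards [eventually_ge_atTop 3] with n hn
        have hn3 : (3 : ℝ) ≤ n := by exact_mod_cast hn
        have hL : 0 < Real.log n := Real.log_pos (by linarith)
        rw [sub_div, mul_div_assoc, div_self hL.ne', mul_one]
      · filter_upwards [eventually_ge_atTop 3] with n hn h0
        have hn3 : (3 : ℝ) ≤ n := by exact_mod_cast hn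
        have hL : 0 < Real.log n := Real.log_pos (by linarith)
        exact absurd h0 hL.ne'
    exact (Asymptotics.isBigO_refl ell atTop).mul_isLittleO h1
  have hs := hf.sum_range (fun n => mul_nonneg (ell_nonneg n) (log_nat_nonneg n)) TT_top
  have hs' := hs.comp_tendsto (tendsto_add_atTop_nat 1)
  have e1 : ∀ X : ℕ, ∑ i ∈ Finset.range (X + 1), ell i * (AA i - 1 / z3 * Real.log i) =
      BB X - 1 / z3 * TT X := by
    intro X
    have e2 : ∑ i ∈ Finset.range (X + 1), ell i * AA i = BB X := by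
      rw [BB_eq, Finset.range_eq_Ico, Finset.sum_eq_sum_Ico_succ_bot (by omega)]
      have e3 : ell 0 = 0 := by simp [ell]
      rw [e3, zero_mul, zero_add]
      rfl
    rw [← e2]
    unfold TT
    rw [Finset.mul_sum, ← Finset.sum_sub_distrib]
    refine Finset.sum_congr rfl fun i _ => ?_
    ring
  have h3 : Tendsto (fun X : ℕ => (BB X - 1 / z3 * TT X) / TT X) atTop (𝓝 0) := by
    have := hs'.tendsto_div_nhds_zero
    refine this.congr fun X => ?_
    simp only [Function.comp]
    rw [e1]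
    rfl
  have h4 := (h3.mul TT_lim).add (TT_lim.const_mul (1 / z3))
  rw [zero_mul, zero_add] at h4
  have e5 : 1 / z3 * (1 / 2) = 1 / (2 * z3) := by ring
  rw [e5] at h4
  refine h4.congr' ?_
  have h6 : ∀ᶠ X : ℕ in atTop, 0 < TT X := by
    have := (tendsto_add_atTop_iff_nat (f := fun n : ℕ => ∑ i ∈ Finset.range n, ell i * Real.log i) 1).2
      TT_top
    exact this.eventually_gt_atTop 0
  filter_upwards [h6, eventually_ge_atTop 3] with n hT hn
  have hn3 : (3 : ℝ) ≤ n := by exact_mod_cast hn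
  have hL : 0 < Real.log n := Real.log_pos (by linarith)
  field_simp
  ring

end Pool.Agent.Q299.FA.WS
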