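import Pool.Agent.Q299.FA.W6A
import Pool.Agent.Q299.FA.W6B

set_option autoImplicit false

/-!
# Project FA (helper120), job W6 (helper299): the logarithmic mean of Franel's integral
-/

namespace Pool.Agent.Q299.FA.WS

open MeasureTheory Filter Topology Set Pool.Agent.Q120.FA

/-- a uniform form of the limit of `H2` -/
theorem H2_unif {z : ℝ} (h : Tendsto (fun x : ℝ => H2 x / Real.log x) atTop (𝓝 z)) {ε : ℝ}
    (hε : 0 < ε) : ∃ C : ℝ, 0 ≤ C ∧ ∀ y : ℝ, 1 ≤ y → |H2 y - z * Real.log y| ≤ ε * Real.log y + C := by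
  obtain ⟨y0, hy0⟩ := ((h.eventually (Metric.ball_mem_nhds z hε)).and
    (eventually_ge_atTop 3)).exists_forall_of_atTop
  set y1 := max y0 3 with hy1
  have hy13 : 3 ≤ y1 := le_max_right _ _
  have hn1 : 0 ≤ H2 y1 := H2_nonneg (by linarith)
  have hl1 : 0 ≤ Real.log y1 := Real.log_nonneg (by linarith)
  refine ⟨H2 y1 + |z| * Real.log y1, by positivity, fun y hy => ?_⟩
  have hly : 0 ≤ Real.log y := Real.log_nonneg hy
  rcases le_or_gt y1 y with h1 | h1
  · obtain ⟨h2, h3⟩ := hy0 y ((le_max_left _ _).trans h1)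
    have hL : 0 < Real.log y := Real.log_pos (by linarith)
    have h4 : |H2 y / Real.log y - z| < ε := by
      rw [← Real.dist_eq]
      exact h2
    have h5 : H2 y - z * Real.log y = (H2 y / Real.log y - z) * Real.log y := by
      field_simp
    rw [h5, abs_mul, abs_of_pos hL]
    have : 0 ≤ H2 y1 + |z| * Real.log y1 := by positivity
    nlinarith
  · have h2 : 0 ≤ H2 y := H2_nonneg hy
    have h3 : H2 y ≤ H2 y1 := H2_mono hy h1.le
    have h4 : Real.log y ≤ Real.log y1 := Real.log_le_log (by linarith) h1.le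
    have h5 : |H2 y - z * Real.log y| ≤ |H2 y| + |z * Real.log y| := abs_sub _ _
    rw [abs_of_nonneg h2, abs_mul, abs_of_nonneg hly] at h5
    have h6 : |z| * Real.log y ≤ |z| * Real.log y1 := mul_le_mul_of_nonneg_left h4 (abs_nonneg _)
    have h7 : 0 ≤ ε * Real.log y := by positivity
    linarith

/-- `∑_{e ≤ X} (j2 e/e) H2((X+1)/e)` -/
noncomputable def GG (X : ℕ) : ℝ := ∑ e ∈ Finset.Icc 1 X, j2 e / e * H2 (((X + 1 : ℕ) : ℝ) / e)

theorem log_pos_of {n : ℕ} (hn : 3 ≤ n) : 0 < Real.log n := by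
  have hn3 : (3 : ℝ) ≤ n := by exact_mod_cast hn
  exact Real.log_pos (by linarith)

theorem GG_lim {z : ℝ} (h : Tendsto (fun x : ℝ => H2 x / Real.log x) atTop (𝓝 z)) :
    Tendsto (fun X : ℕ => GG X / Real.log X ^ 2) atTop (𝓝 (z / (2 * z3))) := by
  have hz3 := z3_pos
  have key : Tendsto (fun X : ℕ => (GG X - z * BB X) / Real.log X ^ 2) atTop (𝓝 0) := by
    rw [Metric.tendsto_atTop']
    intro δ hδ
    obtain ⟨C, hC, hb⟩ := H2_unif h (ε := δ * z3) (by positivity)
    have h1 : Tendsto (fun X : ℕ => δ * z3 * (BB X / Real.log X ^ 2) +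
        C * ((AA X / Real.log X) * (1 / Real.log X))) atTop
        (𝓝 (δ * z3 * (1 / (2 * z3)) + C * (1 / z3 * 0))) :=
      (BB_lim.const_mul _).add ((AA_lim.mul (tendsto_const_nhds.div_atTop tendsto_log_nat)).const_mul _)
    have e1 : δ * z3 * (1 / (2 * z3)) + C * (1 / z3 * 0) = δ / 2 := by
      field_simp
      ring
    rw [e1] at h1
    have h2 := h1.eventually (gt_mem_nhds (half_lt_self hδ))
    obtain ⟨n0, hn0⟩ := (h2.and (eventually_ge_atTop 3)).exists_forall_of_atTop
    refine ⟨n0, fun n hn => ?_⟩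
    obtain ⟨h3, h4⟩ := hn0 n hn.le
    have hL := log_pos_of h4
    rw [Real.dist_eq, sub_zero, abs_div, abs_of_pos (by positivity : 0 < Real.log (n : ℝ) ^ 2)]
    refine lt_of_le_of_lt ?_ h3
    have h5 : |GG n - z * BB n| ≤ δ * z3 * BB n + C * AA n := by
      have e2 : GG n - z * BB n = ∑ e ∈ Finset.Icc 1 n, j2 e / e *
          (H2 (((n + 1 : ℕ) : ℝ) / e) - z * Real.log (((n + 1 : ℕ) : ℝ) / e)) := by
        unfold GG BB
        rw [Finset.mul_sum, ← Finset.sum_sub_distrib]
        refine Finset.sum_congr rfl fun e _ => ?_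
        push_cast
        ring
      have e3 : δ * z3 * BB n + C * AA n = ∑ e ∈ Finset.Icc 1 n, j2 e / e *
          (δ * z3 * Real.log (((n + 1 : ℕ) : ℝ) / e) + C) := by
        unfold BB AA
        rw [Finset.mul_sum, Finset.mul_sum, ← Finset.sum_add_distrib]
        refine Finset.sum_congr rfl fun e _ => ?_
        push_cast
        ring
      rw [e2, e3]
      refine (Finset.abs_sum_le_sum_abs _ _).trans (Finset.sum_le_sum fun e he => ?_)
      rw [Finset.mem_Icc] at he
      have he0 : (0 : ℝ) < e := by exact_mod_cast he.1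
      have hj := (j2_bounds e he.1).1
      rw [abs_mul, abs_of_nonneg (div_nonneg hj he0.le)]
      refine mul_le_mul_of_nonneg_left (hb _ ?_) (div_nonneg hj he0.le)
      rw [le_div_iff₀ he0, one_mul]
      exact_mod_cast (by omega : e ≤ n + 1)
    refine (div_le_div_of_nonneg_right h5 (by positivity)).trans (le_of_eq ?_)
    field_simp
  have h2 := key.add (BB_lim.const_mul z)
  rw [zero_add] at h2
  have e1 : z * (1 / (2 * z3)) = z / (2 * z3) := by ring
  rw [e1] at h2
  refine h2.congr fun X => ?_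
  ring

theorem aa_nonneg (N : ℕ) : 0 ≤ aa N := by
  unfold aa
  refine Finset.sum_nonneg fun e he => mul_nonneg (j2_bounds e (Finset.mem_Icc.1 he).1).1 (sq_nonneg _)

/-- with the weights `1/N²` -/
theorem aa_lim {z : ℝ} (h : Tendsto (fun x : ℝ => H2 x / Real.log x) atTop (𝓝 z)) :
    Tendsto (fun X : ℕ => (∑ N ∈ Finset.Icc 1 X, aa N / (N : ℝ) ^ 2) / Real.log X ^ 2) atTop
      (𝓝 (z / (2 * z3))) := by
  set b : ℕ → ℝ := fun N => aa N / ((N : ℝ) * (N + 1)) with hb
  have hb0 : ∀ N, 0 ≤ b N := fun N => div_nonneg (aa_nonneg N) (by positivity)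
  have hG : ∀ X : ℕ, ∑ N ∈ Finset.range (X + 1), b N = GG X := by
    intro X
    have h1 := ident X
    rw [Finset.range_eq_Ico, Finset.sum_eq_sum_Ico_succ_bot (by omega)]
    have e3 : b 0 = 0 := by simp [hb, aa]
    rw [e3, zero_add]
    exact h1
  have hf : (fun N : ℕ => b N / N) =o[atTop] fun N : ℕ => b N + ell N * Real.log N := by
    have h1 : (fun N : ℕ => b N * (1 / (N : ℝ))) =o[atTop] fun N : ℕ => b N * 1 := by
      refine (Asymptotics.isBigO_refl b atTop).mul_isLittleO ?_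
      rw [Asymptotics.isLittleO_one_iff]
      exact tendsto_one_div_atTop_nhds_zero_nat
    have h2 : (fun N : ℕ => b N * 1) =O[atTop] fun N : ℕ => b N + ell N * Real.log N := by
      refine Asymptotics.isBigO_of_le _ fun N => ?_
      have h3 := mul_nonneg (ell_nonneg N) (log_nat_nonneg N)
      rw [Real.norm_eq_abs, Real.norm_eq_abs, mul_one, abs_of_nonneg (hb0 N),
        abs_of_nonneg (add_nonneg (hb0 N) h3)]
      linarith
    refine (h1.trans_isBigO h2).congr_left fun N => ?_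
    ring
  have hg0 : (0 : ℕ → ℝ) ≤ fun N : ℕ => b N + ell N * Real.log N := fun N =>
    add_nonneg (hb0 N) (mul_nonneg (ell_nonneg N) (log_nat_nonneg N))
  have htop : Tendsto (fun n : ℕ => ∑ i ∈ Finset.range n, (b i + ell i * Real.log i)) atTop atTop := by
    refine tendsto_atTop_mono (fun n => ?_) TT_top
    refine Finset.sum_le_sum fun i _ => ?_
    have := hb0 i
    linarith
  have hs := (hf.sum_range hg0 htop).comp_tendsto (tendsto_add_atTop_nat 1)
  have hs2 := hs.tendsto_div_nhds_zero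
  have hden : ∀ X : ℕ, ∑ i ∈ Finset.range (X + 1), (b i + ell i * Real.log i) = GG X + TT X := by
    intro X
    rw [Finset.sum_add_distrib, hG]
    rfl
  have hlim1 := (GG_lim h).add TT_lim
  have h3 : Tendsto (fun X : ℕ => (∑ i ∈ Finset.range (X + 1), b i / i) / Real.log X ^ 2) atTop
      (𝓝 (0 * (z / (2 * z3) + 1 / 2))) := by
    refine (hs2.mul hlim1).congr' ?_
    have h6 : ∀ᶠ X : ℕ in atTop, 0 < ∑ i ∈ Finset.range (X + 1), (b i + ell i * Real.log i) :=
      (htop.comp (tendsto_add_atTop_nat 1)).eventually_gt_atTop 0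
    filter_upwards [h6, eventually_ge_atTop 3] with n hT hn
    have hL := log_pos_of hn
    simp only [Function.comp]
    rw [hden] at hT ⊢
    field_simp
  rw [zero_mul] at h3
  have h4 := (GG_lim h).add h3
  rw [add_zero] at h4
  refine h4.congr fun X => ?_
  rw [← add_div, ← hG, ← Finset.sum_add_distrib]
  congr 1
  rw [Finset.range_eq_Ico, Finset.sum_eq_sum_Ico_succ_bot (by omega)]
  have e3 : b 0 + b 0 / ((0 : ℕ) : ℝ) = 0 := by simp [hb, aa]
  rw [e3, zero_add]
  refine Finset.sum_congr rfl fun N hN => ?_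
  have hN1 : 1 ≤ N := (Finset.mem_Icc.1 hN).1
  have hN0 : (0 : ℝ) < N := by exact_mod_cast hN1
  rw [hb]
  simp only
  field_simp

theorem sum_inv_sq_le (X : ℕ) : ∑ N ∈ Finset.Icc 1 X, 1 / (N : ℝ) ^ 2 ≤ 2 := by
  rcases Nat.eq_zero_or_pos X with rfl | hX
  · simp
  · rw [← Finset.add_sum_Ioc_eq_sum_Icc (by omega)]
    have h1 := sum_Ioc_inv_sq_le_sub (α := ℝ) one_ne_zero hX
    simp only [Nat.cast_one, inv_one] at h1
    have h2 : ∑ x ∈ Finset.Ioc 1 X, 1 / (x : ℝ) ^ 2 ≤ 1 := by
      have : (0 : ℝ) ≤ (X : ℝ)⁻¹ := by positivity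
      simp only [one_div]
      linarith
    simp only [Nat.cast_one, one_pow, div_one]
    linarith

end Pool.Agent.Q299.FA.WS

namespace Pool.Agent.Q299.FA

open MeasureTheory Filter Topology Set Pool.Agent.Q120.FA WS

theorem t_W6 (h1 : J_W1) (h2 : J_W2) : J_W6 := by
  intro hZ
  have h := aa_lim (h2.1 hZ)
  have h0 : Tendsto (fun X : ℕ => (1 / 4 * ∑ N ∈ Finset.Icc 1 X, 1 / (N : ℝ) ^ 2) / Real.log X ^ 2)
      atTop (𝓝 0) := by
    have hup : Tendsto (fun X : ℕ => 1 / Real.log X ^ 2) atTop (𝓝 0) :=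
      tendsto_const_nhds.div_atTop ((tendsto_pow_atTop (by norm_num)).comp tendsto_log_nat)
    refine squeeze_zero (fun X => ?_) (fun X => ?_) hup
    · exact div_nonneg (mul_nonneg (by norm_num) (Finset.sum_nonneg fun N _ => by positivity))
        (by positivity)
    · refine div_le_div_of_nonneg_right ?_ (by positivity)
      have := sum_inv_sq_le X
      linarith
  have h3 := (h.const_mul (1 / 12)).add h0
  have e1 : 1 / 12 * (zs / (2 * z3)) + 0 = zs / (24 * z3) := by
    have := z3_pos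
    field_simp
    ring
  rw [e1] at h3
  refine h3.congr fun X => ?_
  rw [mul_div_assoc', ← add_div]
  congr 1
  rw [Finset.mul_sum, Finset.mul_sum, ← Finset.sum_add_distrib]
  refine Finset.sum_congr rfl fun N hN => ?_
  rw [h1 N (Finset.mem_Icc.1 hN).1]
  unfold aa
  ring

end Pool.Agent.Q299.FA
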