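import Pool.Agent.Q120.FA.Stm4

set_option autoImplicit false

/-!
# Project FA (helper120), job W3 (helper299), first part: oscillation of `M` and of `h`
-/

namespace Pool.Agent.Q299.FA.WO

open MeasureTheory Filter Topology Set Pool.Agent.Q120.FA

/-- the Mertens function at natural numbers -/
noncomputable def Mi (n : ℕ) : ℝ := Mr n

theorem Mr_nat (x : ℝ) : Mr x = Mi ⌊x⌋₊ := by
  unfold Mi Mr
  rw [Nat.floor_natCast]

theorem Mi_zero : Mi 0 = 0 := by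
  unfold Mi Mr
  simp

theorem Mi_one : Mi 1 = 1 := by
  unfold Mi Mr
  simp

/-- the oscillation of the Mertens function on `[a, b]`, `p = (a, b)` -/
noncomputable def GN (p : ℕ × ℕ) : ℝ :=
  (((Finset.Icc p.1 p.2 ×ˢ Finset.Icc p.1 p.2).sup (fun q => ‖Mi q.1 - Mi q.2‖₊) : NNReal) : ℝ)

theorem GN_nonneg (p : ℕ × ℕ) : 0 ≤ GN p := NNReal.coe_nonneg _

theorem GN_le {p : ℕ × ℕ} {n n' : ℕ} (h1 : p.1 ≤ n) (h2 : n ≤ p.2) (h3 : p.1 ≤ n') (h4 : n' ≤ p.2) :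
    |Mi n - Mi n'| ≤ GN p := by
  have h : (n, n') ∈ Finset.Icc p.1 p.2 ×ˢ Finset.Icc p.1 p.2 := by
    rw [Finset.mem_product, Finset.mem_Icc, Finset.mem_Icc]
    exact ⟨⟨h1, h2⟩, ⟨h3, h4⟩⟩
  have := Finset.le_sup (f := fun q : ℕ × ℕ => ‖Mi q.1 - Mi q.2‖₊) h
  have h5 : ((‖Mi n - Mi n'‖₊ : NNReal) : ℝ) ≤ GN p := NNReal.coe_le_coe.2 this
  rwa [coe_nnnorm, Real.norm_eq_abs] at h5

theorem GN_att {p : ℕ × ℕ} (h : p.1 ≤ p.2) :
    ∃ n n' : ℕ, p.1 ≤ n ∧ n ≤ p.2 ∧ p.1 ≤ n' ∧ n' ≤ p.2 ∧ GN p = |Mi n - Mi n'| := by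
  have hne : (Finset.Icc p.1 p.2 ×ˢ Finset.Icc p.1 p.2).Nonempty := by
    refine ⟨(p.1, p.1), ?_⟩
    rw [Finset.mem_product, Finset.mem_Icc]
    exact ⟨⟨le_rfl, h⟩, ⟨le_rfl, h⟩⟩
  obtain ⟨q, hq, he⟩ := Finset.exists_mem_eq_sup _ hne (fun q : ℕ × ℕ => ‖Mi q.1 - Mi q.2‖₊)
  rw [Finset.mem_product, Finset.mem_Icc, Finset.mem_Icc] at hq
  refine ⟨q.1, q.2, hq.1.1, hq.1.2, hq.2.1, hq.2.2, ?_⟩
  unfold GN
  rw [he, coe_nnnorm, Real.norm_eq_abs]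

/-- the oscillation of `M` on `[u - u^θ, u + u^θ]` -/
noncomputable def D (θ u : ℝ) : ℝ := GN (⌊u - u ^ θ⌋₊, ⌊u + u ^ θ⌋₊)

theorem D_nonneg (θ u : ℝ) : 0 ≤ D θ u := GN_nonneg _

theorem D_meas (θ : ℝ) : Measurable (D θ) := by
  have h1 : Measurable (fun u : ℝ => u ^ θ) := by fun_prop
  have h2 : Measurable (fun u : ℝ => ((⌊u - u ^ θ⌋₊, ⌊u + u ^ θ⌋₊) : ℕ × ℕ)) :=
    (Nat.measurable_floor.comp (measurable_id.sub h1)).prodMk
      (Nat.measurable_floor.comp (measurable_id.add h1))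
  exact (measurable_of_countable GN).comp h2

theorem D_le {θ u y y' : ℝ} (hy : |y - u| ≤ u ^ θ) (hy' : |y' - u| ≤ u ^ θ) :
    |Mr y - Mr y'| ≤ D θ u := by
  rw [abs_le] at hy hy'
  rw [Mr_nat, Mr_nat]
  exact GN_le (Nat.floor_mono (by linarith)) (Nat.floor_mono (by linarith))
    (Nat.floor_mono (by linarith)) (Nat.floor_mono (by linarith))

theorem exists_floor {a b : ℝ} (hab : a ≤ b) (hb : 0 ≤ b) {n : ℕ} (h1 : ⌊a⌋₊ ≤ n) (h2 : n ≤ ⌊b⌋₊) :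
    ∃ y : ℝ, a ≤ y ∧ y ≤ b ∧ ⌊y⌋₊ = n := by
  rcases le_or_gt a (n : ℝ) with h | h
  · exact ⟨n, h, (Nat.le_floor_iff hb).1 h2, Nat.floor_natCast n⟩
  · exact ⟨a, le_rfl, hab, le_antisymm h1 (Nat.le_floor h.le)⟩

theorem D_att {θ u : ℝ} (hu : 0 ≤ u) : ∃ y y' : ℝ, |y - u| ≤ u ^ θ ∧ |y' - u| ≤ u ^ θ ∧
    D θ u = |Mr y - Mr y'| := by
  have h0 : 0 ≤ u ^ θ := Real.rpow_nonneg hu θ
  obtain ⟨n, n', h1, h2, h3, h4, h5⟩ := GN_att (p := (⌊u - u ^ θ⌋₊, ⌊u + u ^ θ⌋₊))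
    (Nat.floor_mono (by linarith))
  obtain ⟨y, hy1, hy2, hy3⟩ := exists_floor (by linarith) (by linarith) h1 h2
  obtain ⟨y', hy1', hy2', hy3'⟩ := exists_floor (by linarith) (by linarith) h3 h4
  refine ⟨y, y', abs_le.2 ⟨by linarith, by linarith⟩, abs_le.2 ⟨by linarith, by linarith⟩, ?_⟩
  rw [Mr_nat y, Mr_nat y', hy3, hy3']
  exact h5

/-- `∑_{m ≤ u} D(u/m)/m` -/
noncomputable def F (θ u : ℝ) : ℝ := ∑ m ∈ Finset.Icc 1 ⌊u⌋₊, D θ (u / m) / m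

theorem F_nonneg (θ u : ℝ) : 0 ≤ F θ u :=
  Finset.sum_nonneg fun m _ => div_nonneg (D_nonneg _ _) (Nat.cast_nonneg m)

theorem F_meas (θ : ℝ) : Measurable (F θ) := by
  have h1 : Measurable (fun p : ℕ × ℝ => ∑ m ∈ Finset.Icc 1 p.1, D θ (p.2 / m) / m) := by
    refine measurable_from_prod_countable_right fun N => ?_
    show Measurable (fun x : ℝ => ∑ m ∈ Finset.Icc 1 N, D θ (x / m) / m)
    refine Finset.measurable_fun_sum _ fun m _ => ?_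
    have h2 : Measurable (fun x : ℝ => x / (m : ℝ)) := by fun_prop
    exact ((D_meas θ).comp h2).div_const _
  have h3 : Measurable (fun u : ℝ => ((⌊u⌋₊, u) : ℕ × ℝ)) :=
    Nat.measurable_floor.prodMk measurable_id
  have h4 := h1.comp h3
  have h5 : ((fun p : ℕ × ℝ => ∑ m ∈ Finset.Icc 1 p.1, D θ (p.2 / m) / m) ∘
      fun u : ℝ => ((⌊u⌋₊, u) : ℕ × ℝ)) = F θ := by
    funext u
    rw [Function.comp_apply, F]
  rw [← h5]
  exact h4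

theorem Mr_lt_one {x : ℝ} (hx : x < 1) : Mr x = 0 := by
  rw [Mr_nat, Nat.floor_eq_zero.2 hx, Mi_zero]

theorem Mr_lt_two {x : ℝ} (hx : x < 2) : |Mr x| ≤ 1 := by
  rw [Mr_nat]
  have h : ⌊x⌋₊ < 2 := by
    rw [Nat.floor_lt' (by norm_num)]
    exact_mod_cast hx
  interval_cases ⌊x⌋₊
  · simp [Mi_zero]
  · simp [Mi_one]

theorem hh_eq {y : ℝ} (hy : 0 ≤ y) {K : ℕ} (hK : ⌊y⌋₊ ≤ K) :
    hh y = ∑ m ∈ Finset.Icc 1 K, Mr (y / m) / m := by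
  unfold hh
  refine Finset.sum_subset (Finset.Icc_subset_Icc_right hK) fun m hm hm' => ?_
  rw [Finset.mem_Icc] at hm hm'
  have h1 : ⌊y⌋₊ < m := by
    by_contra h
    exact hm' ⟨hm.1, not_lt.1 h⟩
  have h2 : y < m := (Nat.floor_lt hy).1 h1
  have h3 : (0 : ℝ) < m := lt_of_le_of_lt hy h2
  rw [Mr_lt_one ((div_lt_one h3).2 h2), zero_div]

/-- **oscillation of `h`** -/
theorem hh_osc {θ u y : ℝ} (hθ0 : 0 ≤ θ) (hθ : θ < 1) (hu : 1 ≤ u) (hy : |y - u| ≤ u ^ θ) :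
    |hh y - hh u| ≤ F θ u + 2 * u ^ (θ - 1) := by
  have hu0 : 0 < u := by linarith
  have hp1 : 1 ≤ u ^ θ := Real.one_le_rpow hu hθ0
  have hpu : u ^ θ ≤ u := by
    calc u ^ θ ≤ u ^ (1 : ℝ) := Real.rpow_le_rpow_of_exponent_le hu hθ.le
      _ = u := Real.rpow_one u
  rw [abs_le] at hy
  have hy0 : 0 ≤ y := by linarith
  have hy2 : y ≤ 2 * u := by linarith
  set K : ℕ := ⌊2 * u⌋₊ with hK
  have hKu : ⌊u⌋₊ ≤ K := Nat.floor_mono (by linarith)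
  rw [hh_eq hy0 (Nat.floor_mono hy2 : ⌊y⌋₊ ≤ K), hh_eq hu0.le hKu, ← Finset.sum_sub_distrib]
  have hsplit : Finset.Icc 1 K = Finset.Icc 1 ⌊u⌋₊ ∪ Finset.Ioc ⌊u⌋₊ K := by
    ext m
    simp only [Finset.mem_Icc, Finset.mem_union, Finset.mem_Ioc]
    omega
  have hdisj : Disjoint (Finset.Icc 1 ⌊u⌋₊) (Finset.Ioc ⌊u⌋₊ K) := by
    rw [Finset.disjoint_left]
    intro m hm hm'
    rw [Finset.mem_Icc] at hm
    rw [Finset.mem_Ioc] at hm'
    omega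
  rw [hsplit, Finset.sum_union hdisj]
  refine (abs_add_le _ _).trans (add_le_add ?_ ?_)
  · unfold F
    refine (Finset.abs_sum_le_sum_abs _ _).trans (Finset.sum_le_sum fun m hm => ?_)
    rw [Finset.mem_Icc] at hm
    have hm1 : (1 : ℝ) ≤ m := by exact_mod_cast hm.1
    have hm0 : (0 : ℝ) < m := by linarith
    rw [← sub_div, abs_div, abs_of_pos hm0]
    refine div_le_div_of_nonneg_right ?_ hm0.le
    have hdiv : u ^ θ / m ≤ (u / m) ^ θ := by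
      rw [Real.div_rpow hu0.le hm0.le]
      have h1 : (m : ℝ) ^ θ ≤ m := by
        calc (m : ℝ) ^ θ ≤ (m : ℝ) ^ (1 : ℝ) := Real.rpow_le_rpow_of_exponent_le hm1 hθ.le
          _ = m := Real.rpow_one _
      exact div_le_div_of_nonneg_left (by linarith) (Real.rpow_pos_of_pos hm0 θ) h1
    refine D_le ?_ ?_
    · rw [← sub_div, abs_div, abs_of_pos hm0]
      refine le_trans (div_le_div_of_nonneg_right ?_ hm0.le) hdiv
      exact abs_le.2 hy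
    · rw [sub_self, abs_zero]
      exact Real.rpow_nonneg (by positivity) θ
  · have hb : ∀ m ∈ Finset.Ioc ⌊u⌋₊ K, |Mr (y / m) / m - Mr (u / m) / m| ≤
        if m ≤ ⌊y⌋₊ then 1 / u else 0 := by
      intro m hm
      rw [Finset.mem_Ioc] at hm
      have hum : u < m := (Nat.floor_lt hu0.le).1 hm.1
      have hm0 : (0 : ℝ) < m := by linarith
      rw [Mr_lt_one ((div_lt_one hm0).2 hum), zero_div, sub_zero, abs_div, abs_of_pos hm0]
      split_ifs with h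
      · have h1 : |Mr (y / m)| ≤ 1 := by
          apply Mr_lt_two
          rw [div_lt_iff₀ hm0]
          linarith
        calc |Mr (y / m)| / m ≤ 1 / m := div_le_div_of_nonneg_right h1 hm0.le
          _ ≤ 1 / u := one_div_le_one_div_of_le hu0 hum.le
      · have h1 : y < m := (Nat.floor_lt hy0).1 (not_le.1 h)
        rw [Mr_lt_one ((div_lt_one hm0).2 h1), abs_zero, zero_div]
    refine (Finset.abs_sum_le_sum_abs _ _).trans ((Finset.sum_le_sum hb).trans ?_)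
    rw [← Finset.sum_filter, Finset.sum_const, nsmul_eq_mul]
    have hsub : (Finset.Ioc ⌊u⌋₊ K).filter (fun m => m ≤ ⌊y⌋₊) ⊆ Finset.Ioc ⌊u⌋₊ ⌊y⌋₊ := by
      intro m hm
      rw [Finset.mem_filter, Finset.mem_Ioc] at hm
      rw [Finset.mem_Ioc]
      exact ⟨hm.1.1, hm.2⟩
    have hcard : ((((Finset.Ioc ⌊u⌋₊ K).filter (fun m => m ≤ ⌊y⌋₊)).card : ℕ) : ℝ) ≤ 2 * u ^ θ := by
      have h1 := Finset.card_le_card hsub
      rw [Nat.card_Ioc] at h1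
      rcases le_or_gt ⌊u⌋₊ ⌊y⌋₊ with h | h
      · have h2 : (((((Finset.Ioc ⌊u⌋₊ K).filter (fun m => m ≤ ⌊y⌋₊)).card : ℕ) : ℝ)) ≤
            (⌊y⌋₊ : ℝ) - ⌊u⌋₊ := by
          rw [← Nat.cast_sub h]
          exact_mod_cast h1
        have h3 : (⌊y⌋₊ : ℝ) ≤ y := Nat.floor_le hy0
        have h4 : u < ⌊u⌋₊ + 1 := Nat.lt_floor_add_one u
        linarith
      · have h2 : ⌊y⌋₊ - ⌊u⌋₊ = 0 := by omega
        rw [h2] at h1
        have h3 : (((Finset.Ioc ⌊u⌋₊ K).filter (fun m => m ≤ ⌊y⌋₊)).card : ℕ) = 0 := by omega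
        rw [h3]
        push_cast
        linarith
    calc _ ≤ 2 * u ^ θ * (1 / u) := mul_le_mul_of_nonneg_right hcard (by positivity)
      _ = 2 * u ^ (θ - 1) := by
        rw [Real.rpow_sub_one hu0.ne']
        ring

end Pool.Agent.Q299.FA.WO
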