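import Pool.Agent.Q120.FA.Stm4

set_option autoImplicit false

/-!
# Project FA (helper120), job W6 (helper299), part 1: an exact identity
-/

namespace Pool.Agent.Q299.FA.WS

open MeasureTheory Filter Topology Set Pool.Agent.Q120.FA

theorem Mr_floor {x y : ℝ} (h : ⌊x⌋₊ = ⌊y⌋₊) : Mr x = Mr y := by
  unfold Mr
  rw [h]

theorem hh_floor {x y : ℝ} (h : ⌊x⌋₊ = ⌊y⌋₊) : hh x = hh y := by
  unfold hh
  rw [h]
  refine Finset.sum_congr rfl fun m _ => ?_
  rw [Mr_floor (x := x / m) (y := y / m)]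
  rw [Nat.floor_div_natCast, Nat.floor_div_natCast, h]

/-- on `[N/e, (N+1)/e)` the function `h` is constant -/
theorem hh_block {e N : ℕ} (he : 1 ≤ e) {u : ℝ} (h1 : (N : ℝ) / e ≤ u) (h2 : u < ((N : ℝ) + 1) / e) :
    hh u = hh ((N : ℝ) / e) := by
  have he0 : (0 : ℝ) < e := by exact_mod_cast he
  apply hh_floor
  rw [Nat.floor_div_natCast, Nat.floor_natCast]
  have e1 : u = (u * e) / (e : ℝ) := by field_simp
  rw [e1, Nat.floor_div_natCast]
  congr 1
  rw [div_le_iff₀ he0] at h1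
  rw [lt_div_iff₀ he0] at h2
  rw [Nat.floor_eq_iff (le_trans (by positivity) h1)]
  exact ⟨h1, h2⟩

theorem int_inv_sq {a b : ℝ} (ha : 0 < a) (hab : a ≤ b) :
    IntervalIntegrable (fun u : ℝ => (1 / u) ^ 2) volume a b ∧
      ∫ u in a..b, (1 / u) ^ 2 = 1 / a - 1 / b := by
  have hc : ContinuousOn (fun u : ℝ => (1 / u) ^ 2) (uIcc a b) := by
    intro u hu
    rw [uIcc_of_le hab] at hu
    have : u ≠ 0 := by
      have := hu.1
      linarith [this, ha]
    exact (((continuousAt_const.div continuousAt_id this).pow 2)).continuousWithinAt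
  have hi := hc.intervalIntegrable (μ := volume)
  refine ⟨hi, ?_⟩
  have h1 : ∀ u ∈ uIcc a b, HasDerivAt (fun u : ℝ => -(u⁻¹)) ((1 / u) ^ 2) u := by
    intro u hu
    rw [uIcc_of_le hab] at hu
    have : u ≠ 0 := by
      have := hu.1
      linarith [this, ha]
    have h2 : HasDerivAt (fun u : ℝ => -(u⁻¹)) (-(-(u ^ 2)⁻¹)) u := (hasDerivAt_inv this).neg
    have e : -(-(u ^ 2)⁻¹) = (1 / u) ^ 2 := by rw [neg_neg, one_div, inv_pow]
    rw [← e]
    exact h2
  rw [intervalIntegral.integral_eq_sub_of_hasDerivAt h1 hi]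
  rw [one_div, one_div]
  ring

/-- one block -/
theorem block {e N : ℕ} (he : 1 ≤ e) (hN : 1 ≤ N) :
    IntervalIntegrable (fun u : ℝ => (hh u / u) ^ 2) volume ((N : ℝ) / e) (((N + 1 : ℕ) : ℝ) / e) ∧
      ∫ u in ((N : ℝ) / e)..(((N + 1 : ℕ) : ℝ) / e), (hh u / u) ^ 2 =
        hh ((N : ℝ) / e) ^ 2 * (e / ((N : ℝ) * (N + 1))) := by
  have he0 : (0 : ℝ) < e := by exact_mod_cast he
  have hN0 : (0 : ℝ) < N := by exact_mod_cast hN
  have hab : (N : ℝ) / e ≤ ((N + 1 : ℕ) : ℝ) / e := by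
    push_cast
    gcongr
    linarith
  obtain ⟨h1, h2⟩ := int_inv_sq (a := (N : ℝ) / e) (b := ((N + 1 : ℕ) : ℝ) / e) (by positivity) hab
  have hae : ∀ u ∈ Ioo ((N : ℝ) / e) (((N + 1 : ℕ) : ℝ) / e),
      hh ((N : ℝ) / e) ^ 2 * (1 / u) ^ 2 = (hh u / u) ^ 2 := by
    intro u hu
    rw [hh_block he hu.1.le (by have := hu.2; push_cast at this; exact this)]
    rw [div_pow, div_pow]
    ring
  have h3 : IntervalIntegrable (fun u : ℝ => hh ((N : ℝ) / e) ^ 2 * (1 / u) ^ 2) volume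
      ((N : ℝ) / e) (((N + 1 : ℕ) : ℝ) / e) := h1.const_mul _
  have h4 : ∀ᵐ u ∂(volume.restrict (Ioo ((N : ℝ) / e) (((N + 1 : ℕ) : ℝ) / e))),
      hh ((N : ℝ) / e) ^ 2 * (1 / u) ^ 2 = (hh u / u) ^ 2 := by
    filter_upwards [ae_restrict_mem measurableSet_Ioo] with u hu
    exact hae u hu
  constructor
  · rw [intervalIntegrable_iff_integrableOn_Ioo_of_le hab] at h3 ⊢
    exact h3.congr h4
  · have e1 : ∫ u in ((N : ℝ) / e)..(((N + 1 : ℕ) : ℝ) / e), (hh u / u) ^ 2 =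
        ∫ u in ((N : ℝ) / e)..(((N + 1 : ℕ) : ℝ) / e), hh ((N : ℝ) / e) ^ 2 * (1 / u) ^ 2 := by
      rw [intervalIntegral.integral_of_le hab, intervalIntegral.integral_of_le hab,
        integral_Ioc_eq_integral_Ioo, integral_Ioc_eq_integral_Ioo]
      exact (integral_congr_ae h4).symm
    rw [e1, intervalIntegral.integral_const_mul, h2]
    congr 1
    push_cast
    field_simp
    ring

/-- `H2` at rational points -/
theorem H2_eq {e X : ℕ} (he : 1 ≤ e) (heX : e ≤ X + 1) :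
    H2 (((X + 1 : ℕ) : ℝ) / e) = ∑ N ∈ Finset.Ico e (X + 1),
      hh ((N : ℝ) / e) ^ 2 * (e / ((N : ℝ) * (N + 1))) := by
  have he0 : (0 : ℝ) < e := by exact_mod_cast he
  unfold H2
  have e1 : (1 : ℝ) = (e : ℝ) / e := (div_self he0.ne').symm
  conv_lhs => rw [e1]
  rw [← intervalIntegral.sum_integral_adjacent_intervals_Ico (a := fun k : ℕ => (k : ℝ) / e) heX
    (fun k hk => (block he (le_trans he hk.1)).1)]
  refine Finset.sum_congr rfl fun N hN => ?_
  rw [Finset.mem_Ico] at hN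
  exact (block he (le_trans he hN.1)).2

theorem H2_nonneg {x : ℝ} (hx : 1 ≤ x) : 0 ≤ H2 x := by
  unfold H2
  exact intervalIntegral.integral_nonneg hx fun u _ => sq_nonneg _

/-- the function `h/u` is square integrable on bounded intervals -/
theorem int_hh (n : ℕ) (hn : 1 ≤ n) :
    IntervalIntegrable (fun u : ℝ => (hh u / u) ^ 2) volume 1 n := by
  have h := IntervalIntegrable.trans_iterate_Ico (a := fun k : ℕ => (k : ℝ) / (1 : ℕ)) (m := 1) (n := n)
    (f := fun u : ℝ => (hh u / u) ^ 2) (μ := volume) hn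
    (fun k hk => (block (e := 1) le_rfl hk.1).1)
  simpa using h

theorem H2_mono {x y : ℝ} (hx : 1 ≤ x) (hxy : x ≤ y) : H2 x ≤ H2 y := by
  obtain ⟨n, hn⟩ := exists_nat_ge y
  have hn1 : 1 ≤ n := by
    have : (1 : ℝ) ≤ n := by linarith
    exact_mod_cast this
  have h := int_hh n hn1
  have h1 : IntervalIntegrable (fun u : ℝ => (hh u / u) ^ 2) volume 1 x :=
    h.mono_set (by
      rw [uIcc_of_le hx, uIcc_of_le (by linarith)]
      exact Icc_subset_Icc_right (by linarith))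
  have h2 : IntervalIntegrable (fun u : ℝ => (hh u / u) ^ 2) volume x y :=
    h.mono_set (by
      rw [uIcc_of_le hxy, uIcc_of_le (by linarith)]
      exact Icc_subset_Icc hx hn)
  unfold H2
  rw [← intervalIntegral.integral_add_adjacent_intervals h1 h2]
  have : 0 ≤ ∫ u in x..y, (hh u / u) ^ 2 :=
    intervalIntegral.integral_nonneg hxy fun u _ => sq_nonneg _
  linarith

/-- `∑_{e ≤ N} j2 e h(N/e)²` -/
noncomputable def aa (N : ℕ) : ℝ := ∑ e ∈ Finset.Icc 1 N, j2 e * hh ((N : ℝ) / e) ^ 2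

/-- the exact identity -/
theorem ident (X : ℕ) : ∑ N ∈ Finset.Icc 1 X, aa N / ((N : ℝ) * (N + 1)) =
    ∑ e ∈ Finset.Icc 1 X, j2 e / e * H2 (((X + 1 : ℕ) : ℝ) / e) := by
  have h1 : ∀ N ∈ Finset.Icc 1 X, aa N / ((N : ℝ) * (N + 1)) =
      ∑ e ∈ Finset.Icc 1 N, j2 e * hh ((N : ℝ) / e) ^ 2 / ((N : ℝ) * (N + 1)) := by
    intro N _
    unfold aa
    rw [Finset.sum_div]
  rw [Finset.sum_congr rfl h1]
  have h2 : ∀ e ∈ Finset.Icc 1 X, j2 e / e * H2 (((X + 1 : ℕ) : ℝ) / e) =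
      ∑ N ∈ Finset.Icc e X, j2 e * hh ((N : ℝ) / e) ^ 2 / ((N : ℝ) * (N + 1)) := by
    intro e he
    rw [Finset.mem_Icc] at he
    have he0 : (0 : ℝ) < e := by exact_mod_cast he.1
    rw [H2_eq he.1 (by omega), Finset.mul_sum]
    have e3 : Finset.Ico e (X + 1) = Finset.Icc e X := by
      ext k
      rw [Finset.mem_Ico, Finset.mem_Icc]
      omega
    rw [e3]
    refine Finset.sum_congr rfl fun N _ => ?_
    field_simp
  rw [Finset.sum_congr rfl h2]
  refine Finset.sum_comm' fun N e => ?_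
  rw [Finset.mem_Icc, Finset.mem_Icc, Finset.mem_Icc, Finset.mem_Icc]
  omega

end Pool.Agent.Q299.FA.WS
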